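import Pool.Agent.H27.G.R_seed8.H498R2.KlGen

/-! Kloosterman sums over extensions of a finite field, grouped by minimal polynomials. -/

set_option autoImplicit false
set_option linter.unusedSectionVars false

namespace Pool.Agent.H498R2.Kl

open Polynomial Finset IntermediateField
open Pool.Agent.H341R2.Sharp

section Trace

variable {F E : Type*} [Field F] [Field E] [Algebra F E] [FiniteDimensional F E]
  [Algebra.IsSeparable F E]

theorem sum_emb (x : E) (g : AlgebraicClosure F → AlgebraicClosure F) :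
    ∑ σ : F⟮x⟯ →ₐ[F] AlgebraicClosure F, g (σ (AdjoinSimple.gen F x)) =
      (((minpoly F x).aroots (AlgebraicClosure F)).map g).sum := by
  classical
  set P := minpoly F x with hP
  let Ω := AlgebraicClosure F
  have hx : IsIntegral F x := Algebra.IsIntegral.isIntegral x
  have : Algebra.IsSeparable F F⟮x⟯ := Algebra.isSeparable_tower_bot_of_isSeparable F F⟮x⟯ E
  have hsep : P.Separable := Algebra.IsSeparable.isSeparable F x
  have h3 : ∑ σ : F⟮x⟯ →ₐ[F] Ω, g (σ (AdjoinSimple.gen F x)) =
      ∑ a : { a // a ∈ P.aroots Ω }, g (a : Ω) := by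
    refine Fintype.sum_equiv (algHomAdjoinIntegralEquiv F hx) _ _ ?_
    intro σ
    congr 1
  rw [h3, Finset.sum_mem_multiset (P.aroots Ω) (fun a => g (a : Ω)) (fun a => g a)
    (fun _ => rfl), Finset.sum_eq_multiset_sum, Multiset.toFinset_val,
    Multiset.dedup_eq_self.mpr (nodup_roots hsep.map)]

theorem trace_gen_sum (x : E) (hx0 : x ≠ 0) (a b : F) :
    Algebra.trace F F⟮x⟯ (algebraMap F F⟮x⟯ a * AdjoinSimple.gen F x +
      algebraMap F F⟮x⟯ b * (AdjoinSimple.gen F x)⁻¹) =
      -(a * (minpoly F x).nextCoeff + b * ((minpoly F x).coeff 1 / (minpoly F x).coeff 0)) := by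
  classical
  set P := minpoly F x with hP
  let Ω := AlgebraicClosure F
  have hx : IsIntegral F x := Algebra.IsIntegral.isIntegral x
  have : Algebra.IsSeparable F F⟮x⟯ := Algebra.isSeparable_tower_bot_of_isSeparable F F⟮x⟯ E
  have hmon : P.Monic := minpoly.monic hx
  have hP0 : P.coeff 0 ≠ 0 := by
    intro h
    exact hx0 ((minpoly.coeff_zero_eq_zero hx).1 h)
  have hsplit : (P.map (algebraMap F Ω)).Splits := IsAlgClosed.splits _
  apply (algebraMap F Ω).injective
  rw [trace_eq_sum_embeddings (E := Ω)]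
  have h1 : ∀ σ : F⟮x⟯ →ₐ[F] Ω, σ (algebraMap F F⟮x⟯ a * AdjoinSimple.gen F x +
      algebraMap F F⟮x⟯ b * (AdjoinSimple.gen F x)⁻¹) =
      algebraMap F Ω a * (σ (AdjoinSimple.gen F x)) +
        algebraMap F Ω b * (σ (AdjoinSimple.gen F x))⁻¹ := by
    intro σ
    rw [map_add, map_mul, map_mul, map_inv₀, AlgHom.commutes, AlgHom.commutes]
  simp_rw [h1]
  rw [sum_emb x (fun z => algebraMap F Ω a * z + algebraMap F Ω b * z⁻¹)]
  rw [Multiset.sum_map_add, Multiset.sum_map_mul_left, Multiset.sum_map_mul_left]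
  have e1 : ((P.aroots Ω).map fun z => z).sum = - algebraMap F Ω P.nextCoeff := by
    rw [Multiset.map_id']
    have h2 := hsplit.nextCoeff_eq_neg_sum_roots_of_monic (hmon.map _)
    rw [nextCoeff_map (algebraMap F Ω).injective] at h2
    rw [h2, neg_neg]
  have e2 : ((P.aroots Ω).map fun z => z⁻¹).sum =
      - algebraMap F Ω (P.coeff 1 / P.coeff 0) := by
    have h0 : (P.map (algebraMap F Ω)).eval 0 = algebraMap F Ω (P.coeff 0) := by
      rw [← coeff_zero_eq_eval_zero, coeff_map]
    have h0' : (P.map (algebraMap F Ω)).eval 0 ≠ 0 := by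
      rw [h0]
      exact (_root_.map_ne_zero _).2 hP0
    have h2 := hsplit.eval_derivative_div_eval_of_ne_zero h0'
    have h3 : (P.map (algebraMap F Ω)).derivative.eval 0 = algebraMap F Ω (P.coeff 1) := by
      rw [← coeff_zero_eq_eval_zero, coeff_derivative, coeff_map]
      simp
    rw [h0, h3, ← map_div₀] at h2
    rw [h2]
    change _ = - ((P.aroots Ω).map fun z => 1 / (0 - z)).sum
    rw [← Multiset.sum_map_neg']
    rw [Multiset.map_map]
    congr 1
    apply Multiset.map_congr rfl
    intro z _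
    rw [Function.comp, zero_sub, one_div, inv_neg, neg_neg]
  rw [e1, e2, map_neg, map_add, map_mul, map_mul]
  ring

theorem trace_kl (x : E) (hx0 : x ≠ 0) (a b : F) :
    Algebra.trace F E (algebraMap F E a * x + algebraMap F E b * x⁻¹) =
      (Module.finrank F E / (minpoly F x).natDegree) •
      -(a * (minpoly F x).nextCoeff + b * ((minpoly F x).coeff 1 / (minpoly F x).coeff 0)) := by
  have h1 : algebraMap F E a * x + algebraMap F E b * x⁻¹ =
      algebraMap F⟮x⟯ E (algebraMap F F⟮x⟯ a * AdjoinSimple.gen F x +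
      algebraMap F F⟮x⟯ b * (AdjoinSimple.gen F x)⁻¹) := by
    rw [map_add, map_mul, map_mul, map_inv₀, AdjoinSimple.algebraMap_gen,
      ← IsScalarTower.algebraMap_apply, ← IsScalarTower.algebraMap_apply]
  rw [h1, ← Algebra.trace_trace (S := F⟮x⟯), Algebra.trace_algebraMap, map_nsmul,
    trace_gen_sum x hx0, (finrank_div x).1]

end Trace

section Lam

variable {F : Type*} [Field F] [Fintype F] [DecidableEq F]

/-- the multiplicative function on monic polynomials attached to a Kloosterman sum -/
noncomputable def lamK (ψ : AddChar F ℂ) (a b : F) (h : F[X]) : ℂ :=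
  if h.coeff 0 = 0 then 0 else ψ (-(a * h.nextCoeff + b * (h.coeff 1 / h.coeff 0)))

theorem lamK_mult (ψ : AddChar F ℂ) (a b : F) : Mult (lamK ψ a b) := by
  constructor
  · unfold lamK
    rw [if_neg (by simp)]
    have h1 : (1 : F[X]).nextCoeff = 0 := by simp [nextCoeff]
    have h2 : (1 : F[X]).coeff 1 = 0 := by simp [coeff_one]
    rw [h1, h2]
    simp
  · intro g h hg hh
    unfold lamK
    rw [mul_coeff_zero]
    by_cases h1 : g.coeff 0 = 0
    · simp [h1]
    by_cases h2 : h.coeff 0 = 0
    · simp [h2]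
    rw [if_neg (mul_ne_zero h1 h2), if_neg h1, if_neg h2, ← AddChar.map_add_eq_mul,
      hg.nextCoeff_mul hh, mul_coeff_one]
    congr 1
    field_simp
    ring

theorem TK_eq_sum {E : Type*} [Field E] [Fintype E] [DecidableEq E] [Algebra F E]
    (ψ : AddChar F ℂ) (a b : F) :
    TG (lamK ψ a b) (Module.finrank F E) =
      ∑ x : E, if x = 0 then 0 else
        ψ (Algebra.trace F E (algebraMap F E a * x + algebraMap F E b * x⁻¹)) := by
  classical
  set m := Module.finrank F E with hm
  have hm0 : 0 < m := Module.finrank_pos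
  unfold TG
  have h1 : ∀ x ∈ (univ : Finset E), minpoly F x ∈ (Irr F m).filter (fun P => P.natDegree ∣ m) := by
    intro x _
    have hx : IsIntegral F x := Algebra.IsIntegral.isIntegral x
    rw [mem_filter, mem_Irr]
    refine ⟨⟨minpoly.monic hx, minpoly.irreducible hx, Nat.le_of_dvd hm0 (finrank_div x).2⟩,
      (finrank_div x).2⟩
  rw [← sum_fiberwise_of_maps_to h1]
  apply sum_congr rfl
  intro P hP
  rw [mem_filter, mem_Irr] at hP
  obtain ⟨⟨hmon, hirr, _⟩, hdvd⟩ := hP
  have h2 : ∀ x ∈ univ.filter (fun x : E => minpoly F x = P), (if x = 0 then (0 : ℂ) else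
        ψ (Algebra.trace F E (algebraMap F E a * x + algebraMap F E b * x⁻¹))) =
      lamK ψ a b P ^ (m / P.natDegree) := by
    intro x hx
    rw [mem_filter] at hx
    have hxi : IsIntegral F x := Algebra.IsIntegral.isIntegral x
    unfold lamK
    by_cases h0 : x = 0
    · rw [if_pos h0, ← hx.2, if_pos ((minpoly.coeff_zero_eq_zero hxi).2 h0), zero_pow]
      have : 0 < (minpoly F x).natDegree := minpoly.natDegree_pos hxi
      rw [hx.2] at this ⊢
      exact (Nat.div_pos (Nat.le_of_dvd hm0 hdvd) this).ne'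
    · have h3 : P.coeff 0 ≠ 0 := by
        rw [← hx.2]
        intro h
        exact h0 ((minpoly.coeff_zero_eq_zero hxi).1 h)
      rw [if_neg h0, if_neg h3, trace_kl x h0, AddChar.map_nsmul_eq_pow, hx.2]
  rw [sum_congr rfl h2, sum_const, nsmul_eq_mul]
  congr 2
  have h3 : univ.filter (fun x : E => minpoly F x = P) = (P.rootSet E).toFinset := by
    ext x
    rw [mem_filter, Set.mem_toFinset, mem_rootSet]
    constructor
    · rintro ⟨_, rfl⟩
      exact ⟨hmon.ne_zero, minpoly.aeval F x⟩
    · rintro ⟨_, h⟩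
      exact ⟨mem_univ _, (minpoly.eq_of_irreducible_of_monic hirr h hmon).symm⟩
  have hsplit : (P.map (algebraMap F E)).Splits := by
    have h4 : P ∣ X ^ (Nat.card F) ^ m - X :=
      (hirr.natDegree_dvd_iff_dvd_X_pow_card_pow_sub_X).1 hdvd
    have h5 : (P.map (algebraMap F E)) ∣ (X ^ (Nat.card F) ^ m - X : E[X]) := by
      have := Polynomial.map_dvd (algebraMap F E) h4
      simpa using this
    have hcard : (Nat.card F) ^ m = Fintype.card E := by
      rw [Nat.card_eq_fintype_card, Module.card_eq_pow_finrank (K := F) (V := E)]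
    rw [hcard] at h5
    have h6 : (X ^ Fintype.card E - X : E[X]).Splits := by
      rw [splits_iff_card_roots, FiniteField.roots_X_pow_card_sub_X,
        FiniteField.X_pow_card_sub_X_natDegree_eq _ Fintype.one_lt_card]
      rfl
    exact h6.of_dvd (FiniteField.X_pow_card_sub_X_ne_zero _ Fintype.one_lt_card) h5
  rw [h3, Set.toFinset_card, card_rootSet_eq_natDegree (PerfectField.separable_of_irreducible hirr)
    hsplit]

/-- vanishing in degree at least three -/
theorem AK_eq_zero {ψ : AddChar F ℂ} (hψ : ψ ≠ 1) {a : F} (ha : a ≠ 0) (b : F) (n : ℕ)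
    (hn : 3 ≤ n) : AG (lamK ψ a b) n = 0 := by
  classical
  obtain ⟨t0, ht0⟩ := AddChar.ne_one_iff.1 hψ
  set t : F := -(a⁻¹ * t0) with ht
  have hat : -(a * t) = t0 := by
    rw [ht]
    field_simp
  have hperm : ∑ h ∈ Mon F n, lamK ψ a b h = ∑ h ∈ Mon F n, lamK ψ a b (h + C t * X ^ (n - 1)) := by
    symm
    have key : ∀ (s : F) (h : F[X]), h ∈ Mon F n → h + C s * X ^ (n - 1) ∈ Mon F n := by
      intro s h hh
      rw [mem_Mon] at hh ⊢
      have hdeg : (C s * X ^ (n - 1)).degree < h.degree := by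
        rw [degree_eq_natDegree hh.1.ne_zero, hh.2]
        refine (degree_C_mul_X_pow_le _ _).trans_lt ?_
        exact_mod_cast (by omega : n - 1 < n)
      refine ⟨hh.1.add_of_left hdeg, ?_⟩
      rw [natDegree_add_eq_left_of_degree_lt hdeg, hh.2]
    refine sum_bij' (fun h _ => h + C t * X ^ (n - 1)) (fun h _ => h + C (-t) * X ^ (n - 1))
      (fun h hh => key t h hh) (fun h hh => key (-t) h hh) ?_ ?_ ?_
    · intro h _
      simp
    · intro h _
      simp
    · intro h _
      rfl
  have hval : ∀ h ∈ Mon F n, lamK ψ a b (h + C t * X ^ (n - 1)) = ψ t0 * lamK ψ a b h := by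
    intro h hh
    rw [mem_Mon] at hh
    have hdeg : (C t * X ^ (n - 1)).degree < h.degree := by
      rw [degree_eq_natDegree hh.1.ne_zero, hh.2]
      refine (degree_C_mul_X_pow_le _ _).trans_lt ?_
      exact_mod_cast (by omega : n - 1 < n)
    have hnd : (h + C t * X ^ (n - 1)).natDegree = n := by
      rw [natDegree_add_eq_left_of_degree_lt hdeg, hh.2]
    have e0 : (h + C t * X ^ (n - 1)).coeff 0 = h.coeff 0 := by
      rw [coeff_add, coeff_C_mul_X_pow, if_neg (by omega), add_zero]
    have e1 : (h + C t * X ^ (n - 1)).coeff 1 = h.coeff 1 := by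
      rw [coeff_add, coeff_C_mul_X_pow, if_neg (by omega), add_zero]
    have e2 : (h + C t * X ^ (n - 1)).nextCoeff = h.nextCoeff + t := by
      rw [nextCoeff_of_natDegree_pos (by rw [hnd]; omega),
        nextCoeff_of_natDegree_pos (by rw [hh.2]; omega), hnd, hh.2, coeff_add,
        coeff_C_mul_X_pow, if_pos rfl]
    unfold lamK
    rw [e0, e1, e2]
    split_ifs with h0
    · simp
    · rw [← hat, ← AddChar.map_add_eq_mul]
      congr 1
      ring
  have h1 : AG (lamK ψ a b) n = ψ t0 * AG (lamK ψ a b) n := by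
    unfold AG
    conv_lhs => rw [hperm, sum_congr rfl hval]
    rw [mul_sum]
  have h2 : (1 - ψ t0) * AG (lamK ψ a b) n = 0 := by
    linear_combination h1
  rcases mul_eq_zero.1 h2 with h | h
  · exact absurd (sub_eq_zero.1 h).symm ht0
  · exact h

end Lam

end Pool.Agent.H498R2.Kl
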