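import Pool.Agent.H27.G.R_seed8.H498R2.KlField

/-! Weil's bound for Kloosterman sums over finite fields of odd order. -/

set_option autoImplicit false
set_option linter.unusedSectionVars false

namespace Pool.Agent.H498R2.Kl

open Polynomial Finset
open Pool.Agent.H341R2.Sharp

section Count

variable {F E : Type*} [Field F] [Fintype F] [DecidableEq F] [Field E] [Fintype E] [DecidableEq E]
  [Algebra F E]

/-- `z ↦ z ^ q - z` -/
noncomputable def AS (F E : Type*) [Field F] [Fintype F] [Field E] [Algebra F E] : E →ₗ[F] E :=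
  (FiniteField.frobeniusAlgHom F E).toLinearMap - LinearMap.id

theorem AS_apply (z : E) : AS F E z = z ^ Fintype.card F - z := rfl

theorem ker_AS : LinearMap.ker (AS F E) = Submodule.span F {(1 : E)} := by
  ext z
  rw [LinearMap.mem_ker, AS_apply, sub_eq_zero, Submodule.mem_span_singleton]
  constructor
  · intro h
    obtain ⟨c, hc⟩ := mem_range_of_pow_card h
    exact ⟨c, by rw [← hc, Algebra.smul_def, mul_one]⟩
  · rintro ⟨c, rfl⟩
    rw [Algebra.smul_def, mul_one, ← map_pow, FiniteField.pow_card]

theorem range_AS : LinearMap.range (AS F E) = LinearMap.ker (Algebra.trace F E) := by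
  apply Submodule.eq_of_le_of_finrank_eq
  · rintro _ ⟨z, rfl⟩
    rw [LinearMap.mem_ker, AS_apply, map_sub, sub_eq_zero]
    exact Algebra.trace_eq_of_algEquiv (FiniteField.frobeniusAlgEquivOfAlgebraic F E) z
  · have h1 := LinearMap.finrank_range_add_finrank_ker (AS F E)
    have h2 := LinearMap.finrank_range_add_finrank_ker (Algebra.trace F E)
    rw [ker_AS, finrank_span_singleton one_ne_zero] at h1
    rw [LinearMap.range_eq_top.2 (Algebra.trace_surjective F E), finrank_top,
      Module.finrank_self] at h2
    omega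

theorem hilbert90 (y : E) :
    (univ.filter fun z : E => z ^ Fintype.card F - z = y).card =
      if Algebra.trace F E y = 0 then Fintype.card F else 0 := by
  split_ifs with hy
  · have h1 : y ∈ LinearMap.range (AS F E) := by
      rw [range_AS]
      exact hy
    obtain ⟨z0, hz0⟩ := h1
    have h2 : (univ.filter fun z : E => z ^ Fintype.card F - z = y) =
        (univ : Finset F).image fun c => z0 + algebraMap F E c := by
      ext z
      rw [mem_filter, mem_image]
      constructor
      · rintro ⟨_, hz⟩
        have h3 : z - z0 ∈ LinearMap.ker (AS F E) := by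
          rw [LinearMap.mem_ker, map_sub, hz0, AS_apply, hz, sub_self]
        rw [ker_AS, Submodule.mem_span_singleton] at h3
        obtain ⟨c, hc⟩ := h3
        refine ⟨c, mem_univ _, ?_⟩
        rw [Algebra.smul_def, mul_one] at hc
        rw [hc]
        ring
      · rintro ⟨c, _, rfl⟩
        refine ⟨mem_univ _, ?_⟩
        rw [← AS_apply (F := F), map_add, hz0]
        have h3 : algebraMap F E c ∈ LinearMap.ker (AS F E) := by
          rw [ker_AS, Submodule.mem_span_singleton]
          exact ⟨c, by rw [Algebra.smul_def, mul_one]⟩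
        rw [LinearMap.mem_ker.1 h3, add_zero]
    rw [h2, card_image_of_injective, card_univ]
    intro c d hcd
    exact (algebraMap F E).injective (add_left_cancel hcd)
  · rw [card_eq_zero, filter_eq_empty_iff]
    intro z _ hz
    apply hy
    have h1 : y ∈ LinearMap.range (AS F E) := ⟨z, hz⟩
    rw [range_AS] at h1
    exact h1

theorem quad_count (hE : ringChar E ≠ 2) {a b : E} (ha : a ≠ 0) (hb : b ≠ 0) (w : E) :
    ((univ.filter fun x : E => x ≠ 0 ∧ a * x + b * x⁻¹ = w).card : ℤ) =
      quadraticChar E (w ^ 2 - 4 * (a * b)) + 1 := by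
  rw [← quadraticChar_card_sqrts hE]
  congr 1
  have h2 : (2 : E) ≠ 0 := Ring.two_ne_zero hE
  refine card_bij' (fun x _ => 2 * a * x - w) (fun y _ => (y + w) / (2 * a)) ?_ ?_ ?_ ?_
  · intro x hx
    rw [mem_filter] at hx
    rw [Set.mem_toFinset]
    change (2 * a * x - w) ^ 2 = w ^ 2 - 4 * (a * b)
    obtain ⟨_, hx0, hx⟩ := hx
    rw [← hx]
    field_simp
    ring
  · intro y hy
    rw [Set.mem_toFinset] at hy
    change y ^ 2 = w ^ 2 - 4 * (a * b) at hy
    rw [mem_filter]
    have h0 : y + w ≠ 0 := by
      intro h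
      have h3 : y ^ 2 - w ^ 2 = 0 := by
        have : y ^ 2 - w ^ 2 = (y + w) * (y - w) := by ring
        rw [this, h, zero_mul]
      rw [hy] at h3
      have h4 : (2 : E) * 2 * (a * b) = 0 := by linear_combination -h3
      exact (mul_ne_zero (mul_ne_zero h2 h2) (mul_ne_zero ha hb)) h4
    refine ⟨mem_univ _, div_ne_zero h0 (mul_ne_zero h2 ha), ?_⟩
    field_simp
    linear_combination hy
  · intro x _
    field_simp
    ring
  · intro y _
    field_simp
    ring

/-- the Kloosterman sum over the extension `E` -/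
noncomputable def KE (E : Type*) [Field E] [Fintype E] [DecidableEq E] [Algebra F E]
    (ψ : AddChar F ℂ) (a b : F) : ℂ :=
  ∑ x : E, if x = 0 then 0 else
        ψ (Algebra.trace F E (algebraMap F E a * x + algebraMap F E b * x⁻¹))

theorem sum_KE (hE : ringChar E ≠ 2) {ψ : AddChar F ℂ} (hψ : ψ.IsPrimitive) {a b : F}
    (ha : a ≠ 0) (hb : b ≠ 0) :
    ∑ c ∈ univ.filter (fun c : F => c ≠ 0), KE E ψ (c * a) (c * b) =
      1 + ∑ z : E, ((quadraticChar E ((z ^ Fintype.card F - z) ^ 2 -
        4 * (algebraMap F E a * algebraMap F E b)) : ℤ) : ℂ) := by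
  have haE : algebraMap F E a ≠ 0 := (_root_.map_ne_zero _).2 ha
  have hbE : algebraMap F E b ≠ 0 := (_root_.map_ne_zero _).2 hb
  have h1 : ∑ c : F, KE E ψ (c * a) (c * b) =
      ∑ z : E, (((quadraticChar E ((z ^ Fintype.card F - z) ^ 2 -
        4 * (algebraMap F E a * algebraMap F E b)) : ℤ) : ℂ) + 1) := by
    unfold KE
    rw [sum_comm]
    have h2 : ∀ x : E, ∑ c : F, (if x = 0 then (0 : ℂ) else
        ψ (Algebra.trace F E (algebraMap F E (c * a) * x + algebraMap F E (c * b) * x⁻¹))) =
        ∑ z : E, if x ≠ 0 ∧ algebraMap F E a * x + algebraMap F E b * x⁻¹ =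
          z ^ Fintype.card F - z then (1 : ℂ) else 0 := by
      intro x
      by_cases hx : x = 0
      · simp [hx]
      · simp only [if_neg hx]
        have h3 : ∀ c : F, Algebra.trace F E (algebraMap F E (c * a) * x +
            algebraMap F E (c * b) * x⁻¹) =
            c * Algebra.trace F E (algebraMap F E a * x + algebraMap F E b * x⁻¹) := by
          intro c
          have h := (Algebra.trace F E).map_smul c
            (algebraMap F E a * x + algebraMap F E b * x⁻¹)
          rw [smul_eq_mul] at h
          rw [← h, Algebra.smul_def]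
          congr 1
          rw [map_mul, map_mul]
          ring
        simp_rw [h3]
        rw [AddChar.sum_mulShift _ hψ]
        have h4 := hilbert90 (F := F) (algebraMap F E a * x + algebraMap F E b * x⁻¹)
        rw [← h4, card_filter]
        push_cast
        apply sum_congr rfl
        intro z _
        congr 1
        apply propext
        constructor
        · intro h
          exact ⟨hx, h.symm⟩
        · rintro ⟨_, h⟩
          exact h.symm
    simp_rw [h2]
    rw [sum_comm]
    apply sum_congr rfl
    intro z _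
    have h5 := quad_count hE haE hbE (z ^ Fintype.card F - z)
    have h6 : (((univ.filter fun x : E => x ≠ 0 ∧ algebraMap F E a * x + algebraMap F E b * x⁻¹ =
        z ^ Fintype.card F - z).card : ℤ) : ℂ) =
        ((quadraticChar E ((z ^ Fintype.card F - z) ^ 2 -
        4 * (algebraMap F E a * algebraMap F E b)) + 1 : ℤ) : ℂ) := by rw [h5]
    rw [card_filter] at h6
    push_cast at h6
    exact h6
  have h2 : KE E ψ (0 * a) (0 * b) = Fintype.card E - 1 := by
    unfold KE
    have h3 : ∀ x : E, (if x = 0 then (0 : ℂ) else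
        ψ (Algebra.trace F E (algebraMap F E (0 * a) * x + algebraMap F E (0 * b) * x⁻¹))) =
        1 - if x = 0 then 1 else 0 := by
      intro x
      split_ifs <;> simp
    simp_rw [h3]
    rw [sum_sub_distrib]
    simp
  have h3 : ∑ c : F, KE E ψ (c * a) (c * b) =
      ∑ c ∈ univ.filter (fun c : F => c ≠ 0), KE E ψ (c * a) (c * b) +
        KE E ψ (0 * a) (0 * b) := by
    rw [← sum_filter_add_sum_filter_not univ (fun c : F => c ≠ 0)]
    congr 1
    have : (univ.filter fun c : F => ¬ c ≠ 0) = {0} := by
      ext c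
      simp
    rw [this, sum_singleton]
  rw [h3, h2, sum_add_distrib] at h1
  simp only [sum_const, card_univ, nsmul_eq_mul, mul_one] at h1
  linear_combination h1

/-- the discriminant polynomial -/
noncomputable def DD (E : Type*) [Field E] (q : ℕ) (k : E) : E[X] := (X ^ q - X) ^ 2 - C (4 * k)

theorem natDegree_DD (hq : 1 < Fintype.card F) (k : E) :
    (DD E (Fintype.card F) k).natDegree = 2 * Fintype.card F := by
  rw [DD, natDegree_sub_C, natDegree_pow, FiniteField.X_pow_card_sub_X_natDegree_eq _ hq]

theorem DD_ne (hE : ringChar E ≠ 2) {k : E} (hk : k ≠ 0) (c : E) (h : E[X]) :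
    DD E (Fintype.card F) k ≠ C c * h ^ 2 := by
  intro heq
  have hq : 1 < Fintype.card F := Fintype.one_lt_card
  have h2 : (2 : E) ≠ 0 := Ring.two_ne_zero hE
  have hd1 : h ∣ DD E (Fintype.card F) k := by
    rw [heq]
    exact Dvd.dvd.mul_left (dvd_pow_self h two_ne_zero) _
  have hqE : ((Fintype.card F : ℕ) : E) = 0 := by
    have : ((Fintype.card F : ℕ) : F) = 0 := FiniteField.cast_card_eq_zero F
    have h3 := congrArg (algebraMap F E) this
    rw [map_natCast, map_zero] at h3
    exact h3
  have hder : derivative (DD E (Fintype.card F) k) =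
      C (-2 : E) * (X ^ Fintype.card F - X) := by
    rw [DD, derivative_sub, derivative_C, sub_zero, derivative_pow, derivative_sub,
      derivative_X_pow, derivative_X]
    simp only [hqE, map_zero, zero_mul, zero_sub]
    simp only [map_neg, Nat.cast_ofNat, map_ofNat]
    ring
  have hd2 : h ∣ derivative (DD E (Fintype.card F) k) := by
    rw [heq, derivative_mul, derivative_C, zero_mul, zero_add, derivative_pow]
    refine Dvd.dvd.mul_left ?_ _
    refine Dvd.dvd.mul_right ?_ _
    refine Dvd.dvd.mul_left ?_ _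
    simp
  rw [hder] at hd2
  have hd3 : h ∣ X ^ Fintype.card F - X := by
    have hu : IsUnit (C (-2 : E)) := isUnit_C.2 (isUnit_iff_ne_zero.2 (neg_ne_zero.2 h2))
    exact hu.dvd_mul_left.1 hd2
  have hd4 : h ∣ C (4 * k) := by
    have : C (4 * k) = (X ^ Fintype.card F - X) ^ 2 - DD E (Fintype.card F) k := by
      rw [DD]; ring
    rw [this]
    exact dvd_sub (Dvd.dvd.trans hd3 (dvd_pow_self _ two_ne_zero)) hd1
  have hu : IsUnit h := by
    refine isUnit_of_dvd_unit hd4 (isUnit_C.2 (isUnit_iff_ne_zero.2 ?_))
    have : (4 : E) = 2 * 2 := by norm_num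
    rw [this]
    exact mul_ne_zero (mul_ne_zero h2 h2) hk
  have hdeg := natDegree_DD (F := F) hq k
  rw [heq] at hdeg
  have h5 : (C c * h ^ 2).natDegree ≤ 0 := by
    refine (natDegree_C_mul_le _ _).trans ?_
    rw [natDegree_pow, natDegree_eq_zero_of_isUnit hu]
  omega

theorem sum_KE_bound (hE : ringChar E ≠ 2) {ψ : AddChar F ℂ} (hψ : ψ.IsPrimitive) {a b : F}
    (ha : a ≠ 0) (hb : b ≠ 0) :
    ‖∑ c ∈ univ.filter (fun c : F => c ≠ 0), KE E ψ (c * a) (c * b)‖ ≤
      2 * Fintype.card F * Real.sqrt (Fintype.card E) := by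
  have haE : algebraMap F E a ≠ 0 := (_root_.map_ne_zero _).2 ha
  have hbE : algebraMap F E b ≠ 0 := (_root_.map_ne_zero _).2 hb
  have hq : 1 < Fintype.card F := Fintype.one_lt_card
  rw [sum_KE hE hψ ha hb]
  set k := algebraMap F E a * algebraMap F E b with hk
  have hw := weil_sharp hE (DD E (Fintype.card F) k) (by rw [natDegree_DD hq]; omega)
    (DD_ne (F := F) hE (mul_ne_zero haE hbE))
  rw [natDegree_DD hq] at hw
  have h1 : ∀ z : E, (DD E (Fintype.card F) k).eval z = (z ^ Fintype.card F - z) ^ 2 - 4 * k := by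
    intro z
    simp [DD]
  simp_rw [h1] at hw
  have h2 : ‖∑ z : E, ((quadraticChar E ((z ^ Fintype.card F - z) ^ 2 - 4 * k) : ℤ) : ℂ)‖ =
      |∑ z : E, (quadraticChar E ((z ^ Fintype.card F - z) ^ 2 - 4 * k) : ℝ)| := by
    rw [← Real.norm_eq_abs, ← Complex.norm_real]
    push_cast
    rfl
  refine (norm_add_le _ _).trans ?_
  rw [h2, norm_one]
  have h3 : 1 ≤ Real.sqrt (Fintype.card E) := by
    rw [Real.one_le_sqrt]
    exact_mod_cast Fintype.card_pos
  push_cast at hw
  nlinarith [hw, h3]

end Count

end Pool.Agent.H498R2.Kl
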